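import Pool.Agent.Helper42.FR.Stmts

/-! # Row ALG: the lower bound for the rank of `e` -/

set_option autoImplicit false

namespace Pool.Agent.Helper25.FR

open Matrix Pool.Agent.Helper42.FR

universe u

theorem alg_one {F : Type u} [Field F] {b : ℕ} (s s' e : Matrix (Fin b) (Fin b) F) :
    (fn s s' e 1).rank ≤ e.rank := by
  have h : fn s s' e 1 = s * e * s' := by
    show 1 * (s * e * s') = s * e * s'
    rw [one_mul]
  rw [h]
  exact (Matrix.rank_mul_le_left _ _).trans (Matrix.rank_mul_le_right _ _)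

theorem st_ALG (F : Type u) [Field F] (h1 : ST_RC F) (h2 : ST_NUM) : ST_ALG F := by
  obtain ⟨C, hC⟩ := h1
  refine ⟨C, ?_⟩
  intro b d s s' t t' h h' k e hR
  have hrc := hC b d s s' t t' h h' k e hR
  have key := h2 (fun n => ((fn s s' e n).rank : ℝ)) b (C * d) (by positivity) ?_ ?_
  · have h3 : ((fn s s' e 0).rank : ℝ) = b := by
      show (((1 : Matrix (Fin b) (Fin b) F)).rank : ℝ) = b
      rw [Matrix.rank_one, Fintype.card_fin]
    have h4 : ((fn s s' e 1).rank : ℝ) ≤ e.rank := by
      exact_mod_cast alg_one s s' e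
    have h5 := (abs_le.1 key).1
    simp only [h3] at h5
    linarith
  · intro n
    refine ⟨Nat.cast_nonneg _, ?_⟩
    have h3 : (fn s s' e n).rank ≤ b := by
      simpa using (fn s s' e n).rank_le_card_height
    exact_mod_cast h3
  · intro n
    obtain ⟨r1, r2⟩ := hrc n
    have q1 : ((fn s s' e n).rank : ℝ) ≤ 4 * (fn s s' e (n + 1)).rank +
        (fn s s' e (n + 2)).rank + C * 3 ^ n * d := by
      exact_mod_cast r1
    have q2 : 4 * ((fn s s' e (n + 1)).rank : ℝ) + (fn s s' e (n + 2)).rank ≤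
        (fn s s' e n).rank + C * 3 ^ n * d := by
      exact_mod_cast r2
    show |((fn s s' e n).rank : ℝ) - (4 * (fn s s' e (n + 1)).rank +
      (fn s s' e (n + 2)).rank)| ≤ C * d * 3 ^ n
    rw [abs_le]
    have e1 : (C : ℝ) * 3 ^ n * d = C * d * 3 ^ n := by ring
    rw [e1] at q1 q2
    constructor <;> linarith

end Pool.Agent.Helper25.FR
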